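import Pool.Agent.Helper12.VW.Defs

/-!
VW-G4: heights of the coefficients of `g`, from the Mahler measure.
-/

open Polynomial NumberField

namespace Pool.Agent.Helper12.VW

theorem coeff_toPoly' {R : Type*} [Semiring R] {n : ℕ} (a : Fin (n + 1) → R) (i : Fin (n + 1)) :
    (toPoly a).coeff (i : ℕ) = a i := by
  classical
  rw [toPoly, finsetSum_coeff, Finset.sum_eq_single i]
  · simp
  · intro j _ hj
    rw [coeff_C_mul_X_pow, if_neg]
    intro h
    exact hj (Fin.ext h.symm)
  · intro h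
    exact absurd (Finset.mem_univ i) h

theorem natDegree_toPoly_le' {R : Type*} [Semiring R] {n : ℕ} (a : Fin (n + 1) → R) :
    (toPoly a).natDegree ≤ n := by
  rw [toPoly]
  refine natDegree_sum_le_of_forall_le _ _ (fun i _ => ?_)
  exact (natDegree_C_mul_X_pow_le _ _).trans (Nat.lt_succ_iff.1 i.2)

/-- VW-G4: heights of the coefficients of `g` (Mahler measure). -/
theorem height_coeff_le (n : ℕ) : ∃ c : ℝ, 0 < c ∧ ∀ (H : ℕ) (a : Fin (n + 1) → ℤ), a ∈ Box n H →
    a (Fin.last n) ≠ 0 → ∀ (L : Type) [Field L] [NumberField L] (g : L[X]), g.Monic →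
    ((toPoly a).map (Int.castRingHom ℂ) =
      C ((a (Fin.last n) : ℤ) : ℂ) * ∏ τ : L →+* ℂ, g.map τ) →
    ∀ i : ℕ, ∏ τ : L →+* ℂ, max 1 ‖τ (g.coeff i)‖ ≤ c * H / |(a (Fin.last n) : ℝ)| := by
  refine ⟨2 ^ n * (n + 1), by positivity, ?_⟩
  intro H a ha hlast L _ _ g hg hnf i
  have hl : (0 : ℝ) < |(a (Fin.last n) : ℝ)| := by
    rw [abs_pos]
    exact_mod_cast hlast
  rw [le_div_iff₀ hl]
  -- the degrees
  have hdeg : ∑ _τ : L →+* ℂ, g.natDegree ≤ n := by
    have h1 : ((toPoly a).map (Int.castRingHom ℂ)).natDegree ≤ n :=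
      natDegree_map_le.trans (natDegree_toPoly_le' a)
    rw [hnf, natDegree_C_mul (by exact_mod_cast hlast),
      natDegree_prod_of_monic _ _ (fun τ _ => hg.map τ)] at h1
    simpa [natDegree_map] using h1
  -- the Mahler measures
  have hM : |(a (Fin.last n) : ℝ)| * ∏ τ : L →+* ℂ, (g.map τ).mahlerMeasure ≤ (n + 1) * H := by
    have h1 : ((toPoly a).map (Int.castRingHom ℂ)).mahlerMeasure =
        |(a (Fin.last n) : ℝ)| * ∏ τ : L →+* ℂ, (g.map τ).mahlerMeasure := by
      rw [hnf, mahlerMeasure_mul, mahlerMeasure_const, ← Finset.prod_map_val,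
        prod_mahlerMeasure_eq_mahlerMeasure_prod, Multiset.map_map, Complex.norm_intCast]
      rfl
    rw [← h1]
    refine (mahlerMeasure_le_sum_norm_coeff _).trans ?_
    have h2 : ∀ j, ‖((toPoly a).map (Int.castRingHom ℂ)).coeff j‖ ≤ H := by
      intro j
      rw [coeff_map]
      by_cases hj : j < n + 1
      · have h3 := coeff_toPoly' a ⟨j, hj⟩
        have h4 : (toPoly a).coeff j = a ⟨j, hj⟩ := h3
        rw [h4]
        have h5 := (Fintype.mem_piFinset.1 ha) ⟨j, hj⟩
        rw [Finset.mem_Icc, ← abs_le] at h5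
        simp only [eq_intCast, Complex.norm_intCast]
        exact_mod_cast h5
      · have h4 : (toPoly a).coeff j = 0 :=
          coeff_eq_zero_of_natDegree_lt ((natDegree_toPoly_le' a).trans_lt (by omega))
        rw [h4]
        simp
    rw [sum_over_range' _ (fun _ => norm_zero) (n + 1)
      ((natDegree_map_le.trans (natDegree_toPoly_le' a)).trans_lt (Nat.lt_succ_self n))]
    calc ∑ j ∈ Finset.range (n + 1), ‖((toPoly a).map (Int.castRingHom ℂ)).coeff j‖
        ≤ ∑ _j ∈ Finset.range (n + 1), (H : ℝ) := Finset.sum_le_sum fun j _ => h2 j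
      _ = (n + 1) * H := by
        rw [Finset.sum_const, Finset.card_range, nsmul_eq_mul]
        push_cast
        ring
  -- each factor
  have h1 : ∀ τ : L →+* ℂ, max 1 ‖τ (g.coeff i)‖ ≤ 2 ^ g.natDegree * (g.map τ).mahlerMeasure := by
    intro τ
    have h2 : 1 ≤ (g.map τ).mahlerMeasure := by
      apply one_le_mahlerMeasure_of_one_le_norm_leadingCoeff
      rw [(hg.map τ).leadingCoeff, norm_one]
    refine max_le ?_ ?_
    · have : (1 : ℝ) ≤ 2 ^ g.natDegree := one_le_pow₀ (by norm_num)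
      nlinarith
    · rw [← coeff_map]
      refine (norm_coeff_le_choose_mul_mahlerMeasure i _).trans ?_
      rw [natDegree_map]
      have h3 : ((g.natDegree.choose i : ℕ) : ℝ) ≤ 2 ^ g.natDegree := by
        exact_mod_cast Nat.choose_le_two_pow _ _
      exact mul_le_mul_of_nonneg_right h3 (mahlerMeasure_nonneg _)
  calc (∏ τ : L →+* ℂ, max 1 ‖τ (g.coeff i)‖) * |(a (Fin.last n) : ℝ)|
      ≤ (∏ τ : L →+* ℂ, 2 ^ g.natDegree * (g.map τ).mahlerMeasure) *
          |(a (Fin.last n) : ℝ)| := by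
        refine mul_le_mul_of_nonneg_right ?_ hl.le
        exact Finset.prod_le_prod (fun τ _ => by positivity) (fun τ _ => h1 τ)
    _ = 2 ^ (∑ _τ : L →+* ℂ, g.natDegree) *
        (|(a (Fin.last n) : ℝ)| * ∏ τ : L →+* ℂ, (g.map τ).mahlerMeasure) := by
        rw [Finset.prod_mul_distrib, Finset.prod_pow_eq_pow_sum]
        ring
    _ ≤ 2 ^ n * ((n + 1) * H) := by
        refine mul_le_mul ?_ hM ?_ (by positivity)
        · exact pow_le_pow_right₀ (by norm_num) hdeg
        · exact mul_nonneg hl.le (Finset.prod_nonneg fun τ _ => mahlerMeasure_nonneg _)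
    _ = 2 ^ n * (n + 1) * H := by ring

end Pool.Agent.Helper12.VW
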