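import Pool.Agent.Helper33.VW.ExistsSmall
import Pool.Agent.Helper33.VW.HeightCoeff

/-!
VW-G2: a small defining polynomial of a primitive number field.
-/

open Polynomial NumberField IntermediateField

namespace Pool.Agent.Helper12.VW

/-- Coefficients of the minimal polynomial of an algebraic integer whose conjugates are bounded. -/
theorem minpoly_coeff_le {K : Type} [Field K] [NumberField K] (y : K) (R : ℝ)
    (hR : ∀ τ : K →+* ℂ, ‖τ y‖ ≤ R) (i : ℕ) :
    ‖((minpoly ℚ y).coeff i : ℝ)‖ ≤ R ^ ((minpoly ℚ y).natDegree - i) *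
      (minpoly ℚ y).natDegree.choose i := by
  have hx := Algebra.IsSeparable.isIntegral ℚ y
  have h1 : ‖((minpoly ℚ y).map (algebraMap ℚ ℂ)).coeff i‖ ≤
      R ^ ((minpoly ℚ y).natDegree - i) * (minpoly ℚ y).natDegree.choose i := by
    refine coeff_le_of_roots_le i (minpoly.monic hx) (IsAlgClosed.splits _) (fun z hz => ?_)
    classical
    rw [← Multiset.mem_toFinset] at hz
    obtain ⟨φ, rfl⟩ := (NumberField.Embeddings.range_eval_eq_rootSet_minpoly K ℂ y).symm.subset hz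
    exact hR φ
  rw [coeff_map] at h1
  have h2 : ‖((algebraMap ℚ ℂ) ((minpoly ℚ y).coeff i))‖ = ‖((minpoly ℚ y).coeff i : ℝ)‖ := by
    rw [eq_ratCast, Complex.norm_ratCast, Real.norm_eq_abs]
  rw [← h2]
  exact h1

/-- The vector of coefficients of a monic integer polynomial. -/
theorem toPoly_coeffs {k : ℕ} (p : ℤ[X]) (hp : p.natDegree ≤ k) :
    toPoly (fun i : Fin (k + 1) => p.coeff i) = p := by
  ext j
  by_cases hj : j < k + 1
  · exact coeff_toPoly' (fun i : Fin (k + 1) => p.coeff i) ⟨j, hj⟩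
  · rw [coeff_eq_zero_of_natDegree_lt (n := j) (hp.trans_lt (by omega)),
      coeff_eq_zero_of_natDegree_lt ((natDegree_toPoly_le' _).trans_lt (by omega))]

/-- VW-G2 (uses G1): a small defining polynomial of a primitive field. -/
theorem exists_small_poly (k : ℕ) (hk : 2 ≤ k) : ∃ C : ℝ, 0 < C ∧
    ∀ (K : Type) [Field K] [NumberField K], Module.finrank ℚ K = k → IsPrim K →
      ∃ b : Fin (k + 1) → ℤ, b (Fin.last k) = 1 ∧ (∀ i : Fin (k + 1), (i : ℕ) + 1 = k →
          0 ≤ b i ∧ b i < k) ∧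
        (∀ i : Fin (k + 1), |(b i : ℝ)| ≤
          C * |(discr K : ℝ)| ^ (((k : ℝ) - (i : ℕ)) / (2 * ((k : ℝ) - 1)))) ∧
        Irreducible (ratPoly b) ∧ ∃ θ : K, aeval θ (ratPoly b) = 0 := by
  obtain ⟨C₁, hC₁, hsmall⟩ := exists_small k hk
  refine ⟨(2 * C₁ + 1) ^ k * 2 ^ k, by positivity, ?_⟩
  intro K _ _ hfin hprim
  obtain ⟨α, hα, hαb⟩ := hsmall K hfin
  have hk1 : (0 : ℝ) < (k : ℝ) - 1 := by
    have : (2 : ℝ) ≤ k := by exact_mod_cast hk
    linarith
  -- generators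
  have hgen : ∀ y : K, (∀ q : ℚ, y ≠ algebraMap ℚ K q) → ℚ⟮y⟯ = ⊤ := by
    intro y hy
    refine (hprim ℚ⟮y⟯).resolve_left ?_
    rw [adjoin_simple_eq_bot_iff, mem_bot]
    rintro ⟨q, hq⟩
    exact hy q hq.symm
  have hdeg : ∀ y : K, (∀ q : ℚ, y ≠ algebraMap ℚ K q) → (minpoly ℚ y).natDegree = k := by
    intro y hy
    rw [← hfin]
    exact (Field.primitive_element_iff_minpoly_natDegree_eq ℚ y).1 (hgen y hy)
  have htr : ∀ y : K, (∀ q : ℚ, y ≠ algebraMap ℚ K q) →
      (minpoly ℚ y).coeff (k - 1) = - Algebra.trace ℚ K y := by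
    intro y hy
    have h1 := trace_eq_finrank_mul_minpoly_nextCoeff ℚ (L := K) y
    rw [hgen y hy, IntermediateField.finrank_top, Nat.cast_one, one_mul,
      nextCoeff_of_natDegree_pos (by rw [hdeg y hy]; omega), hdeg y hy] at h1
    rw [h1, neg_neg]
  -- the shift
  set D : ℝ := |(discr K : ℝ)| with hD
  have hD1 : 1 ≤ D := by
    rw [hD]
    exact_mod_cast Int.one_le_abs (discr_ne_zero K)
  set E : ℝ := D ^ (1 / (2 * ((k : ℝ) - 1))) with hE
  have hE1 : 1 ≤ E := Real.one_le_rpow hD1 (by positivity)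
  have hαint : IsIntegral ℤ (α : K) := α.isIntegral_coe
  have hmα := minpoly.isIntegrallyClosed_eq_field_fractions' ℚ hαint
  set c : ℤ := (minpoly ℤ (α : K)).coeff (k - 1) with hc
  have hc' : (minpoly ℚ (α : K)).coeff (k - 1) = c := by
    rw [hmα, coeff_map, hc]
    simp
  have hcb : |(c : ℝ)| ≤ C₁ * E * k := by
    have h1 := minpoly_coeff_le (α : K) (C₁ * E) hαb (k - 1)
    rw [hc', hdeg _ hα] at h1
    have h2 : k - (k - 1) = 1 := by omega
    rw [h2, pow_one, Real.norm_eq_abs, Nat.choose_symm_of_eq_add (a := k - 1) (b := 1) (by omega),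
      Nat.choose_one_right] at h1
    exact_mod_cast h1
  set m : ℤ := -(c / k) with hm
  have hkZ : (0 : ℤ) < k := by exact_mod_cast (by omega : 0 < k)
  have hkR : (0 : ℝ) < k := by exact_mod_cast (by omega : 0 < k)
  have hmb : |(m : ℝ)| ≤ C₁ * E + 1 := by
    rw [hm, Int.cast_neg, abs_neg]
    have h1 : (c / (k : ℤ) : ℤ) * (k : ℤ) ≤ c := Int.ediv_mul_le c hkZ.ne'
    have h2 : c < (c / (k : ℤ) + 1) * (k : ℤ) := Int.lt_ediv_add_one_mul_self c hkZ
    have h1' : ((c / (k : ℤ) : ℤ) : ℝ) * k ≤ c := by exact_mod_cast h1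
    have h2' : (c : ℝ) < (((c / (k : ℤ) : ℤ) : ℝ) + 1) * k := by exact_mod_cast h2
    rw [abs_le] at hcb ⊢
    constructor
    · by_contra h3
      push Not at h3
      have h4 : (((c / (k : ℤ) : ℤ) : ℝ) + 1) * k < (-(C₁ * E)) * k := by
        apply mul_lt_mul_of_pos_right _ hkR
        linarith
      nlinarith [hcb.1]
    · by_contra h3
      push Not at h3
      have h4 : (C₁ * E + 1) * k < ((c / (k : ℤ) : ℤ) : ℝ) * k :=
        mul_lt_mul_of_pos_right h3 hkR
      nlinarith [hcb.2]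
  set y : K := (α : K) - m with hy
  have hyint : IsIntegral ℤ y := hαint.sub (isIntegral_algebraMap (R := ℤ) (x := m) (A := K))
  have hynr : ∀ q : ℚ, y ≠ algebraMap ℚ K q := by
    intro q hq
    apply hα (q + m)
    rw [map_add, ← hq, hy]
    simp
  have hmy := minpoly.isIntegrallyClosed_eq_field_fractions' ℚ hyint
  set p : ℤ[X] := minpoly ℤ y with hp
  have hpdeg : p.natDegree = k := by
    rw [← hdeg y hynr, hmy, (minpoly.monic hyint).natDegree_map]
  have hyb : ∀ τ : K →+* ℂ, ‖τ y‖ ≤ (2 * C₁ + 1) * E := by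
    intro τ
    rw [hy, map_sub, map_intCast]
    refine (norm_sub_le _ _).trans ?_
    rw [Complex.norm_intCast]
    have := hαb τ
    nlinarith
  have hcast : ∀ i : ℕ, ((minpoly ℚ y).coeff i : ℝ) = (p.coeff i : ℝ) := by
    intro i
    rw [hmy, coeff_map]
    simp
  refine ⟨fun i => p.coeff i, ?_, ?_, ?_, ?_, ?_⟩
  · show p.coeff ((Fin.last k : Fin (k + 1)) : ℕ) = 1
    rw [Fin.val_last, ← hpdeg]
    exact (minpoly.monic hyint).coeff_natDegree
  · intro i hi
    show 0 ≤ p.coeff i ∧ p.coeff i < k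
    have hi' : (i : ℕ) = k - 1 := by omega
    have h1 : (p.coeff (k - 1) : ℚ) = ((c % k : ℤ) : ℚ) := by
      have h2 : (minpoly ℚ y).coeff (k - 1) = p.coeff (k - 1) := by
        rw [hmy, coeff_map]
        simp
      rw [← h2, htr y hynr, hy, map_sub]
      have h3 : Algebra.trace ℚ K ((m : ℤ) : K) = k * m := by
        have h4 := Algebra.trace_algebraMap (R := ℚ) (S := K) (m : ℚ)
        rw [hfin] at h4
        rw [← map_intCast (algebraMap ℚ K) m, h4]
        simp
      have h5 : - Algebra.trace ℚ K (α : K) = c := by rw [← htr _ hα, hc']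
      have h6 : (c % k : ℤ) = c + k * m := by
        rw [hm, Int.emod_def]
        ring
      rw [h3, h6]
      push_cast
      linarith
    have h2 : p.coeff (k - 1) = c % k := by exact_mod_cast h1
    rw [hi', h2]
    exact ⟨Int.emod_nonneg _ hkZ.ne', Int.emod_lt_of_pos _ hkZ⟩
  · intro i
    show |(p.coeff i : ℝ)| ≤ _
    have h1 := minpoly_coeff_le y _ hyb i
    rw [hcast, hdeg y hynr, Real.norm_eq_abs] at h1
    refine h1.trans ?_
    have hik : (i : ℕ) ≤ k := Nat.lt_succ_iff.1 i.2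
    have h2 : E ^ (k - (i : ℕ)) = D ^ (((k : ℝ) - (i : ℕ)) / (2 * ((k : ℝ) - 1))) := by
      rw [hE, ← Real.rpow_natCast, ← Real.rpow_mul (by linarith), Nat.cast_sub hik]
      congr 1
      ring
    rw [mul_pow, ← h2]
    have h3 : ((k.choose i : ℕ) : ℝ) ≤ 2 ^ k := by exact_mod_cast Nat.choose_le_two_pow _ _
    have h4 : (2 * C₁ + 1) ^ (k - (i : ℕ)) ≤ (2 * C₁ + 1) ^ k :=
      pow_le_pow_right₀ (by linarith) (Nat.sub_le _ _)
    calc (2 * C₁ + 1) ^ (k - (i : ℕ)) * E ^ (k - (i : ℕ)) * (k.choose i : ℝ)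
        ≤ (2 * C₁ + 1) ^ k * E ^ (k - (i : ℕ)) * 2 ^ k := by gcongr
      _ = (2 * C₁ + 1) ^ k * 2 ^ k * E ^ (k - (i : ℕ)) := by ring
  · rw [ratPoly, toPoly_coeffs p hpdeg.le]
    have h1 : p.map (Int.castRingHom ℚ) = minpoly ℚ y := hmy.symm
    rw [h1]
    exact minpoly.irreducible (IsIntegral.of_finite ℚ y)
  · refine ⟨y, ?_⟩
    rw [ratPoly, toPoly_coeffs p hpdeg.le]
    have h1 : p.map (Int.castRingHom ℚ) = minpoly ℚ y := hmy.symm
    rw [h1]
    exact minpoly.aeval ℚ y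

end Pool.Agent.Helper12.VW
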