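import Pool.Agent.Helper33.VW.ExistsSmallPoly

/-!
VW-F1: primitive number fields of degree `k` with discriminant of size `X` are root fields of
few polynomials.
-/

open Polynomial NumberField

namespace Pool.Agent.Helper12.VW

theorem sum_exponents (k : ℕ) (hk : 2 ≤ k) :
    ∑ i : Fin (k + 1), (if k ≤ (i : ℕ) + 1 then (0 : ℝ) else
      ((k : ℝ) - (i : ℕ)) / (2 * ((k : ℝ) - 1))) = ((k : ℝ) + 2) / 4 := by
  obtain ⟨n, rfl⟩ : ∃ n, k = n + 1 := ⟨k - 1, by omega⟩
  have hn : (n : ℝ) ≠ 0 := by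
    have : n ≠ 0 := by omega
    exact_mod_cast this
  rw [Fin.sum_univ_eq_sum_range (fun i : ℕ => if n + 1 ≤ i + 1 then (0 : ℝ) else
      (((n + 1 : ℕ) : ℝ) - (i : ℕ)) / (2 * (((n + 1 : ℕ) : ℝ) - 1))) (n + 1 + 1),
    Finset.sum_range_succ, Finset.sum_range_succ, if_pos (show n + 1 ≤ n + 1 from le_rfl),
    if_pos (show n + 1 ≤ n + 1 + 1 by omega)]
  have h1 : ∑ i ∈ Finset.range n, (if n + 1 ≤ i + 1 then (0 : ℝ) else
      (((n + 1 : ℕ) : ℝ) - (i : ℕ)) / (2 * (((n + 1 : ℕ) : ℝ) - 1))) =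
      (∑ i ∈ Finset.range n, ((n : ℝ) + 1 - i)) / (2 * n) := by
    rw [Finset.sum_div]
    refine Finset.sum_congr rfl fun i hi => ?_
    rw [Finset.mem_range] at hi
    rw [if_neg (by omega)]
    push_cast
    ring
  have h2 : ∀ m : ℕ, ∑ i ∈ Finset.range m, ((n : ℝ) + 1 - i) =
      m * (n + 1) - m * (m - 1) / 2 := by
    intro m
    induction m with
    | zero => simp
    | succ m ih =>
      rw [Finset.sum_range_succ, ih]
      push_cast
      ring
  rw [h1, h2]
  push_cast
  field_simp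
  ring

/-- VW-F1 (uses G2): primitive fields of degree `k` with discriminant of size `X` are root fields of
few polynomials. -/
theorem field_cover (k : ℕ) (hk : 2 ≤ k) : ∃ C : ℝ, 0 < C ∧ ∀ X : ℝ, 1 ≤ X →
    ∃ T : Finset (Fin (k + 1) → ℤ), (T.card : ℝ) ≤ C * X ^ (((k : ℝ) + 2) / 4) ∧
      ∀ (L : Type) [Field L] [NumberField L], Module.finrank ℚ L = k → IsPrim L →
        X ≤ |(discr L : ℝ)| → |(discr L : ℝ)| ≤ 2 * X →
        ∃ b ∈ T, Irreducible (ratPoly b) ∧ b (Fin.last k) = 1 ∧ ∃ θ : L, aeval θ (ratPoly b) = 0 := by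
  classical
  obtain ⟨C₂, hC₂, hG⟩ := exists_small_poly k hk
  have hk2 : (2 : ℝ) ≤ k := by exact_mod_cast hk
  have hk1 : (0 : ℝ) < (k : ℝ) - 1 := by linarith
  refine ⟨(k + 4 * C₂ + 1) ^ (k + 1), by positivity, ?_⟩
  intro X hX
  let e : ℕ → ℝ := fun i => ((k : ℝ) - (i : ℕ)) / (2 * ((k : ℝ) - 1))
  let N : ℕ → ℕ := fun i => ⌊C₂ * (2 * X) ^ e i⌋₊
  let S : Fin (k + 1) → Finset ℤ := fun i =>
    if (i : ℕ) = k then {1} else if (i : ℕ) + 1 = k then Finset.Ico 0 (k : ℤ)
      else Finset.Icc (-(N i : ℤ)) (N i)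
  refine ⟨Fintype.piFinset S, ?_, ?_⟩
  · -- the number of polynomials
    have h1 : ∀ i : Fin (k + 1), ((S i).card : ℝ) ≤ (k + 4 * C₂ + 1) *
        X ^ (if k ≤ (i : ℕ) + 1 then (0 : ℝ) else ((k : ℝ) - (i : ℕ)) / (2 * ((k : ℝ) - 1))) := by
      intro i
      by_cases hi1 : (i : ℕ) = k
      · have : S i = {1} := by simp only [S, if_pos hi1]
        rw [this, if_pos (by omega), Real.rpow_zero, mul_one, Finset.card_singleton]
        push_cast
        linarith
      by_cases hi2 : (i : ℕ) + 1 = k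
      · have : S i = Finset.Ico 0 (k : ℤ) := by simp only [S, if_neg hi1, if_pos hi2]
        rw [this, if_pos (by omega), Real.rpow_zero, mul_one, Int.card_Ico]
        simp only [sub_zero, Int.toNat_natCast]
        linarith
      · have : S i = Finset.Icc (-(N i : ℤ)) (N i) := by simp only [S, if_neg hi1, if_neg hi2]
        have hik : (i : ℕ) + 1 < k := by
          have := i.2
          omega
        rw [this, if_neg (by omega), Int.card_Icc]
        have h2 : (((N i : ℤ) + 1 - -(N i : ℤ)).toNat : ℝ) = 2 * (N i : ℝ) + 1 := by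
          have h3 : (N i : ℤ) + 1 - -(N i : ℤ) = ((2 * N i + 1 : ℕ) : ℤ) := by
            push_cast
            ring
          rw [h3, Int.toNat_natCast]
          push_cast
          ring
        rw [h2]
        have hek : ((k : ℝ) - (i : ℕ)) / (2 * ((k : ℝ) - 1)) ≤ 1 := by
          rw [div_le_one (by linarith)]
          have : (0 : ℝ) ≤ ((i : ℕ) : ℝ) := Nat.cast_nonneg _
          linarith
        have hik' : ((i : ℕ) : ℝ) + 1 ≤ k := by exact_mod_cast hik.le
        have hek0 : 0 ≤ ((k : ℝ) - (i : ℕ)) / (2 * ((k : ℝ) - 1)) := by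
          apply div_nonneg <;> linarith
        have h4 : (N i : ℝ) ≤ C₂ * (2 * X) ^ e i := Nat.floor_le (by positivity)
        have h5 : (2 * X) ^ e i ≤ 2 * X ^ e i := by
          rw [Real.mul_rpow (by norm_num) (by linarith)]
          have : (2 : ℝ) ^ e i ≤ 2 ^ (1 : ℝ) :=
            Real.rpow_le_rpow_of_exponent_le (by norm_num) hek
          rw [Real.rpow_one] at this
          gcongr
        have h6 : 1 ≤ X ^ e i := Real.one_le_rpow hX hek0
        have h7 : (N i : ℝ) ≤ C₂ * (2 * X ^ e i) := h4.trans (by gcongr)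
        show 2 * (N i : ℝ) + 1 ≤ (k + 4 * C₂ + 1) * X ^ e i
        nlinarith
    rw [Fintype.card_piFinset, Nat.cast_prod]
    refine (Finset.prod_le_prod (fun i _ => Nat.cast_nonneg _) (fun i _ => h1 i)).trans ?_
    rw [Finset.prod_mul_distrib, Finset.prod_const, Finset.card_univ, Fintype.card_fin,
      ← Real.rpow_sum_of_pos (by linarith), sum_exponents k hk]
  · -- every field is covered
    intro L _ _ hfin hprim hXL hLX
    obtain ⟨b, hb1, hb2, hb3, hb4, θ, hθ⟩ := hG L hfin hprim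
    refine ⟨b, ?_, hb4, hb1, θ, hθ⟩
    rw [Fintype.mem_piFinset]
    intro i
    by_cases hi1 : (i : ℕ) = k
    · have : S i = {1} := by simp only [S, if_pos hi1]
      rw [this, Finset.mem_singleton]
      have h2 : i = Fin.last k := Fin.ext (by rw [hi1, Fin.val_last])
      rw [h2, hb1]
    by_cases hi2 : (i : ℕ) + 1 = k
    · have : S i = Finset.Ico 0 (k : ℤ) := by simp only [S, if_neg hi1, if_pos hi2]
      rw [this, Finset.mem_Ico]
      exact hb2 i hi2
    · have : S i = Finset.Icc (-(N i : ℤ)) (N i) := by simp only [S, if_neg hi1, if_neg hi2]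
      rw [this, Finset.mem_Icc, ← abs_le]
      have h3 : |(b i : ℝ)| ≤ C₂ * (2 * X) ^ e i := by
        refine (hb3 i).trans ?_
        have hik : ((i : ℕ) : ℝ) ≤ k := by
          exact_mod_cast Nat.lt_succ_iff.1 i.2
        have hek0 : 0 ≤ e i := by
          apply div_nonneg <;> linarith
        gcongr
      have h4 : ((|b i|).toNat : ℝ) ≤ C₂ * (2 * X) ^ e i := by
        have h5 : ((|b i|).toNat : ℤ) = |b i| := Int.toNat_of_nonneg (abs_nonneg _)
        have h6 : (((|b i|).toNat : ℤ) : ℝ) = |(b i : ℝ)| := by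
          rw [h5, Int.cast_abs]
        rw [Int.cast_natCast] at h6
        rw [h6]
        exact h3
      have h7 := Nat.le_floor h4
      have h8 : ((|b i|).toNat : ℤ) = |b i| := Int.toNat_of_nonneg (abs_nonneg _)
      rw [← h8]
      exact_mod_cast h7

end Pool.Agent.Helper12.VW
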