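import Pool.Agent.Helper12.VW.Defs

/-!
VW-G1: a small algebraic integer which is not rational (Minkowski).
-/

open Polynomial NumberField NumberField.InfinitePlace NumberField.mixedEmbedding

open scoped NNReal ENNReal

namespace Pool.Agent.Helper12.VW

/-- The bound of Minkowski for the ring of integers. -/
theorem minkowskiBound_le' (K : Type) [Field K] [NumberField K] :
    minkowskiBound K ↑1 ≤ ((2 ^ Module.finrank ℚ K * NNReal.sqrt ‖discr K‖₊ : ℝ≥0) : ℝ≥0∞) := by
  classical
  rw [minkowskiBound, volume_fundamentalDomain_fractionalIdealLatticeBasis,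
    Units.val_one, FractionalIdeal.absNorm_one, Rat.cast_one,
    ENNReal.ofReal_one, one_mul, mixedEmbedding.finrank, volume_fundamentalDomain_latticeBasis,
    ENNReal.coe_mul, ENNReal.coe_pow, ENNReal.coe_ofNat, mul_comm]
  gcongr
  calc (2 : ℝ≥0∞)⁻¹ ^ nrComplexPlaces K * (NNReal.sqrt ‖discr K‖₊ : ℝ≥0∞)
      ≤ 1 * (NNReal.sqrt ‖discr K‖₊ : ℝ≥0∞) := by
        gcongr
        exact pow_le_one₀ (by positivity) (by norm_num)
    _ = _ := one_mul _

/-- A rational algebraic integer of absolute value less than one (real part) is zero. -/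
theorem int_of_rat {K : Type} [Field K] [NumberField K] (α : 𝓞 K) (q : ℚ)
    (h : (α : K) = algebraMap ℚ K q) : ∃ m : ℤ, (α : K) = m := by
  have h1 : IsIntegral ℤ q := by
    have h2 : IsIntegral ℤ (algebraMap ℚ K q) := h ▸ α.isIntegral_coe
    exact (isIntegral_algebraMap_iff (algebraMap ℚ K).injective).1 h2
  obtain ⟨m, hm⟩ := IsIntegrallyClosed.isIntegral_iff.1 h1
  refine ⟨m, ?_⟩
  rw [h, ← hm]
  simp

/-- VW-G1 -/
theorem exists_small (k : ℕ) (hk : 2 ≤ k) : ∃ C : ℝ, 0 < C ∧
    ∀ (K : Type) [Field K] [NumberField K], Module.finrank ℚ K = k →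
      ∃ α : 𝓞 K, (∀ q : ℚ, (α : K) ≠ algebraMap ℚ K q) ∧
        ∀ τ : K →+* ℂ, ‖τ α‖ ≤ C * |(discr K : ℝ)| ^ (1 / (2 * ((k : ℝ) - 1))) := by
  refine ⟨2 * (2 ^ (k + 1) : ℝ) ^ (1 / ((k : ℝ) - 1)), by positivity, ?_⟩
  intro K _ _ hfin
  classical
  have hk0 : k - 1 ≠ 0 := by omega
  have hkr : ((k - 1 : ℕ) : ℝ) = (k : ℝ) - 1 := by
    rw [Nat.cast_sub (by omega)]
    simp
  have hkpos : (0 : ℝ) < (k : ℝ) - 1 := by
    rw [← hkr]
    exact_mod_cast Nat.pos_of_ne_zero hk0
  set N : ℝ≥0 := ‖discr K‖₊ with hN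
  have hN1 : 1 ≤ N := by
    rw [hN, ← NNReal.coe_le_coe, coe_nnnorm, Int.norm_eq_abs, NNReal.coe_one]
    exact_mod_cast Int.one_le_abs (discr_ne_zero K)
  have hNr : (N : ℝ) = |(discr K : ℝ)| := by
    rw [hN, coe_nnnorm, Int.norm_eq_abs]
  have hsq1 : 1 ≤ NNReal.sqrt N := by
    rw [← NNReal.sqrt_one]
    exact NNReal.sqrt_le_sqrt.2 hN1
  set B : ℝ≥0 := 2 ^ (k + 1) * NNReal.sqrt N with hB
  have hB1 : 1 ≤ B := by
    rw [hB]
    exact one_le_mul (one_le_pow₀ (by norm_num)) hsq1
  set T : ℝ≥0 := B ^ (((k - 1 : ℕ) : ℝ)⁻¹) with hT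
  have hTk : T ^ (k - 1) = B := NNReal.rpow_inv_natCast_pow B hk0
  have hT1 : 1 ≤ T := NNReal.one_le_rpow hB1 (by positivity)
  have hmink : minkowskiBound K ↑1 < (B : ℝ≥0∞) := by
    refine (minkowskiBound_le' K).trans_lt ?_
    rw [ENNReal.coe_lt_coe, hfin, hB, pow_succ]
    have : (0 : ℝ≥0) < 2 ^ k * NNReal.sqrt N := by positivity
    calc 2 ^ k * NNReal.sqrt N < 2 ^ k * NNReal.sqrt N + 2 ^ k * NNReal.sqrt N :=
          lt_add_of_pos_left _ this
      _ = 2 ^ k * 2 * NNReal.sqrt N := by ring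
  -- the final estimate
  have hfinal : 2 * (T : ℝ) ≤ 2 * (2 ^ (k + 1) : ℝ) ^ (1 / ((k : ℝ) - 1)) *
      |(discr K : ℝ)| ^ (1 / (2 * ((k : ℝ) - 1))) := by
    rw [hT, hB, NNReal.coe_rpow, NNReal.coe_mul, NNReal.coe_pow, NNReal.coe_ofNat,
      Real.coe_sqrt, hNr, Real.mul_rpow (by positivity) (Real.sqrt_nonneg _), Real.sqrt_eq_rpow,
      ← Real.rpow_mul (abs_nonneg _), hkr, ← mul_assoc]
    apply le_of_eq
    congr 2
    · rw [one_div]
    · rw [one_div, one_div, mul_inv]
  suffices h : ∃ α : 𝓞 K, (∀ q : ℚ, (α : K) ≠ algebraMap ℚ K q) ∧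
      ∀ w : InfinitePlace K, w α ≤ 2 * T by
    obtain ⟨α, h1, h2⟩ := h
    refine ⟨α, h1, fun τ => ?_⟩
    have h3 := h2 (InfinitePlace.mk τ)
    rw [InfinitePlace.apply] at h3
    exact h3.trans hfinal
  obtain ⟨w₀⟩ : Nonempty (InfinitePlace K) := inferInstance
  have hsum := InfinitePlace.sum_mult_eq (K := K)
  by_cases hw₀ : IsReal w₀
  · -- a real place
    have hprod : ∏ w : InfinitePlace K, (if w = w₀ then (1 : ℝ≥0) else T) ^ mult w = B := by
      rw [← Finset.prod_erase_mul _ _ (Finset.mem_univ w₀), if_pos rfl, one_pow, mul_one]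
      rw [← Finset.sum_erase_add _ _ (Finset.mem_univ w₀)] at hsum
      have hm : mult w₀ = 1 := by rw [mult, if_pos hw₀]
      rw [hm] at hsum
      have h1 : ∏ w ∈ Finset.univ.erase w₀, (if w = w₀ then (1 : ℝ≥0) else T) ^ mult w =
          ∏ w ∈ Finset.univ.erase w₀, T ^ mult w := by
        refine Finset.prod_congr rfl fun w hw => ?_
        rw [if_neg (Finset.ne_of_mem_erase hw)]
      rw [h1, Finset.prod_pow_eq_pow_sum, ← hTk]
      congr 1
      omega
    have h1 : minkowskiBound K ↑1 <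
        MeasureTheory.volume (convexBodyLT K (fun w => if w = w₀ then 1 else T)) := by
      rw [convexBodyLT_volume, hprod]
      refine hmink.trans_le ?_
      calc (B : ℝ≥0∞) = 1 * B := (one_mul _).symm
        _ ≤ _ := by
          gcongr
          exact_mod_cast one_le_convexBodyLTFactor K
    obtain ⟨α, hα0, hα⟩ := exists_ne_zero_mem_ringOfIntegers_lt K h1
    refine ⟨α, ?_, fun w => ?_⟩
    · intro q hq
      obtain ⟨m, hm⟩ := int_of_rat α q hq
      have h2 := hα w₀
      rw [if_pos rfl, hm, ← InfinitePlace.norm_embedding_eq, map_intCast,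
        Complex.norm_intCast, NNReal.coe_one] at h2
      have h3 : |m| < 1 := by exact_mod_cast h2
      have h4 : m = 0 := Int.abs_lt_one_iff.1 h3
      apply hα0
      rw [h4] at hm
      exact RingOfIntegers.coe_eq_zero_iff.1 (by simpa using hm)
    · refine (hα w).le.trans ?_
      have hT1' : (1 : ℝ) ≤ T := by exact_mod_cast hT1
      by_cases hw : w = w₀
      · simp only [hw, if_true, NNReal.coe_one]
        linarith
      · simp only [hw, if_false]
        linarith
  · -- a complex place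
    have hw₀' : IsComplex w₀ := not_isReal_iff_isComplex.1 hw₀
    have hprod : ∏ w : InfinitePlace K, (if w = w₀ then NNReal.sqrt T else T) ^ mult w = B := by
      rw [← Finset.prod_erase_mul _ _ (Finset.mem_univ w₀), if_pos rfl]
      rw [← Finset.sum_erase_add _ _ (Finset.mem_univ w₀)] at hsum
      have hm : mult w₀ = 2 := by rw [mult, if_neg hw₀]
      rw [hm] at hsum
      have h1 : ∏ w ∈ Finset.univ.erase w₀, (if w = w₀ then NNReal.sqrt T else T) ^ mult w =
          ∏ w ∈ Finset.univ.erase w₀, T ^ mult w := by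
        refine Finset.prod_congr rfl fun w hw => ?_
        rw [if_neg (Finset.ne_of_mem_erase hw)]
      rw [h1, Finset.prod_pow_eq_pow_sum, hm, NNReal.sq_sqrt, ← hTk, ← pow_succ]
      congr 1
      omega
    have h1 : minkowskiBound K ↑1 < MeasureTheory.volume
        (convexBodyLT' K (fun w => if w = w₀ then NNReal.sqrt T else T) ⟨w₀, hw₀'⟩) := by
      rw [convexBodyLT'_volume, hprod]
      refine hmink.trans_le ?_
      calc (B : ℝ≥0∞) = 1 * B := (one_mul _).symm
        _ ≤ _ := by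
          gcongr
          exact_mod_cast one_le_convexBodyLT'Factor K
    obtain ⟨α, hα0, hα, hre, him⟩ := exists_ne_zero_mem_ringOfIntegers_lt' K ⟨w₀, hw₀'⟩ h1
    simp only [if_true] at hre him
    have hT1' : (1 : ℝ) ≤ T := by exact_mod_cast hT1
    refine ⟨α, ?_, fun w => ?_⟩
    · intro q hq
      obtain ⟨m, hm⟩ := int_of_rat α q hq
      rw [hm, map_intCast, Complex.intCast_re] at hre
      have h3 : |m| < 1 := by exact_mod_cast hre
      have h4 : m = 0 := Int.abs_lt_one_iff.1 h3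
      apply hα0
      rw [h4] at hm
      exact RingOfIntegers.coe_eq_zero_iff.1 (by simpa using hm)
    · by_cases hw : w = w₀
      · subst hw
        rw [← InfinitePlace.norm_embedding_eq]
        refine (Complex.norm_le_abs_re_add_abs_im _).trans ?_
        have h5 : ((NNReal.sqrt T : ℝ≥0) : ℝ) ^ 2 = T := by
          exact_mod_cast NNReal.sq_sqrt T
        rw [h5] at him
        linarith
      · have h6 := hα w hw
        simp only [hw, if_false] at h6
        linarith

end Pool.Agent.Helper12.VW
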